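import Pool.Agent.Run7.h552.NG.GCnv
import Pool.Agent.V11219.BstMain

/-!
# The Lefschetz standard conjecture for varieties with dominated squares
-/

set_option autoImplicit false

open CategoryTheory AlgebraicGeometry

universe u

namespace Run7.h552.NG

open Pool.Agent Pool.Agent.H914 Pool.Agent.H914.VarClass Pool.Agent.H914.VarClass.Obj
  Pool.Agent.H914.WeilCohomology Pool.Agent.H281R3.HT Pool.Agent.TH125.Gal
  Pool.Agent.V11219.Sst Pool.Agent.V11219.Bst Run7.h552.MX

variable {k : Type u} [Field k] {𝒱 : VarClass k} {ops : CycleOps 𝒱}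
  {W : WeilCohomology.{u, 0} ops} {Γ : Type} [Group Γ] {χ : Γ →* W.Kˣ}
  {ι : Type} {X : ι → GVar W Γ} {G : Set (GVar W Γ)} {D : ∀ i, (X i).X.Cycles} {Z : GVar W Γ}

/-- **B for varieties with dominated squares.** -/
theorem FreeFamily.lefschetzB [IsAlgClosed W.K] (e : W.K ≃+* ℂ) (h : FreeFamily χ G X Z)
    (hP : Polarizable X) (hZ : HomEqNum W Z.X) {L : List (ι × ℕ)} (hL : Admissible X L)
    {V : 𝒱.Obj} {g : C.prodOf X Z L ⟶ V.prod V} (hg : Dominant W g)
    {A : V.Cycles} (hA : V.IsCyc 1 A) (hHL : HardLefschetz W V A) : LefschetzB W V A :=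
  lefschetzB_of_homEqNum hA hHL (homEqNum_of_dominant hg ((h.homEqNum_iff e hP hL).2 hZ))

end Run7.h552.NG
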