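import Pool.Agent.Run7.h552.NG.GDefs
import Pool.Agent.Run7.h552.NA.ECnv

/-!
# The conversion
-/

set_option autoImplicit false
set_option linter.unusedSectionVars false

open CategoryTheory AlgebraicGeometry

universe u

namespace Run7.h552.NG

open Pool.Agent Pool.Agent.H914 Pool.Agent.H914.VarClass Pool.Agent.H914.VarClass.Obj
  Pool.Agent.H914.WeilCohomology Pool.Agent.H281R3.HT Pool.Agent.W552 Pool.Agent.TH125.Gal
  Pool.Agent.Y127 Pool.Agent.Y127.G Pool.Agent.Y95.ZT Run7.h552.CT Run7.h552.SF Run7.h552.MX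

section Alg

variable {K : Type} [Field K] [CharZero K] {A : Type} [Ring A] [Algebra K A]
  {B : Type} [Ring B] [Algebra K B] {Γ : Type} [Group Γ] [FiniteDimensional K A]
  [FiniteDimensional K B]

theorem freeO_of {n : ℕ} (hn : Even n) {ρ : Act K A Γ} {T : Submodule K A}
    {ρT : Γ →* (T →ₗ[K] T)} (hρ : ∀ g x, (ρT g x : A) = ap ρ g x) {ρ' : Act K B Γ}
    {U : Submodule K B} (hU : ∀ g, ∀ x ∈ U, ap ρ' g x ∈ U)
    (h : ¬Entangled ρ T ρ' U ∨ SmallFor n ρ T ρ' U) :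
    SmallRelO (⟨T, ρT⟩ : FRep K Γ) (Y95.ZT.subRep (show Γ →* (B ≃ₐ[K] B) from ρ') U hU) := by
  rcases h with h | h1
  · exact NA.freeO_of hn hρ hU (Or.inl h)
  · exact smallO_of hn (ρ := ρ) hρ (ρ' := ρ') hU h1

theorem freeS_of {n : ℕ} (hn : Odd n) {ρ : Act K A Γ} {T : Submodule K A}
    {ρT : Γ →* (T →ₗ[K] T)} (hρ : ∀ g x, (ρT g x : A) = ap ρ g x) {ρ' : Act K B Γ}
    {U : Submodule K B} (hU : ∀ g, ∀ x ∈ U, ap ρ' g x ∈ U)
    (h : ¬Entangled ρ T ρ' U ∨ SmallFor n ρ T ρ' U) :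
    SmallRel (⟨T, ρT⟩ : FRep K Γ) (Y95.ZT.subRep (show Γ →* (B ≃ₐ[K] B) from ρ') U hU) := by
  rcases h with h | h1
  · exact NA.freeS_of hn hρ hU (Or.inl h)
  · exact smallS_of hn (ρ := ρ) hρ (ρ' := ρ') hU h1

/-- the local conditions of the two files -/
theorem localType_of {n : ℕ} {ρ : Act K A Γ} {T : Submodule K A} (h : LocalType n ρ T) :
    C.LocalType n ρ T := h

end Alg

variable {k : Type u} [Field k] {𝒱 : VarClass k} {ops : CycleOps 𝒱}
  {W : WeilCohomology.{u, 0} ops} {Γ : Type} [Group Γ] {χ : Γ →* W.Kˣ}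
  {ι : Type} {X : ι → GVar W Γ} {G : Set (GVar W Γ)} {D : ∀ i, (X i).X.Cycles} {Z : GVar W Γ}

/-- the class of varieties -/
theorem FreeFamily.galoisClass (h : FreeFamily χ G X Z) : GaloisClass χ G where
  galois := fun A hA => (h.good A hA).1
  prod := by
    intro A hA B hB
    obtain ⟨⟨Y, υ⟩, hC, h1, h2, h3⟩ := (h.good A hA).2 B hB
    exact ⟨_, hC, prodVar_of υ h1 h2 h3⟩

theorem FreeFamily.gal (h : FreeFamily χ G X Z) (i : ι) : Y127.GaloisType χ (X i) :=
  (h.good _ (h.mem i)).1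

/-- the family -/
theorem FreeFamily.fam (h : FreeFamily χ G X Z) (hD : ∀ i, HomEqNum W (X i).X) : Fam χ X where
  galois := h.gal
  homEqNum := hD
  middle := fun i => (h.member i).1
  irreducible := fun i => (h.member i).2.1
  lsp := by
    intro i ho
    rcases (h.member i).2.2 with ⟨-, h1⟩ | ⟨h1, -⟩
    · exact bigLoc_of (h.gal i) (localSp_of h1)
    · exact absurd ho (Nat.not_odd_iff_even.2 h1)
  lso := by
    intro i he
    rcases (h.member i).2.2 with ⟨h1, -⟩ | ⟨-, h1, h2⟩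
    · exact absurd he (Nat.not_even_iff_odd.2 h1)
    · have h3 : C.dm W.K (transcendental W (X i).X : Set (W.H (X i).X)) = 3 ∨
        5 ≤ C.dm W.K (transcendental W (X i).X : Set (W.H (X i).X)) := h1
      rw [dm_eq] at h3
      exact ⟨h3, bigLocO_of (h.gal i) h2⟩
  notIso := fun i j hij h1 => (h.distinct i j hij).1 (twistIso_of'
    (fun g x hx => (rhoT (isGalois (h.gal i)) g ⟨x, hx⟩).2) h1)
  mixed := by
    intro i j h1 h2 h3
    have hij : i ≠ j := by
      rintro rfl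
      exact absurd h1 (Nat.not_odd_iff_even.2 h2)
    exact (h.distinct i j hij).2.1 h1 h2 h3
  eight := by
    intro i j hij h1 h2 h3 h4
    exact absurd ⟨h1, h2, h3, h4⟩ (h.distinct i j hij).2.2

/-- the base -/
theorem FreeFamily.bas (h : FreeFamily χ G X Z) (hD : ∀ i, HomEqNum W (X i).X) :
    (h.fam hD).Base Z := by
  intro i
  obtain ⟨r, U, h1, h2, h3⟩ := h.base i
  refine ⟨r, fun a => Y95.ZT.subRep Z.act (U a) (h2 a), fun a => (U a).subtype, fun a => ?_,
    fun a g x => rfl, ?_⟩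
  · rcases Nat.even_or_odd (X i).X.dim with he | ho
    · have h4 := freeO_of he (ρT := rhoT (isGalois (h.gal i))) (fun g x => rfl) (h2 a) (h1 a)
      unfold Fam.rep
      rw [dif_neg (Nat.not_odd_iff_even.2 he)]
      exact h4
    · have h4 := freeS_of ho (ρT := rhoT (isGalois (h.gal i))) (fun g x => rfl) (h2 a) (h1 a)
      unfold Fam.rep
      rw [dif_pos ho]
      exact h4
  · rw [← h3]
    congr 2
    refine Set.iUnion_congr fun a => ?_
    change Set.range ((U a).subtype) = _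
    rw [Submodule.coe_subtype, Subtype.range_coe_subtype]
    rfl

variable [IsAlgClosed W.K]

/-- all steps -/
theorem FreeFamily.tsteps (e : W.K ≃+* ℂ) (h : FreeFamily χ G X Z)
    (hP : ∀ i, Polarization W (X i).X (D i)) (E : Z.X.Cycles)
    {L : List (ι × ℕ)} (hL : Admissible X L) :
    Q71.TS.TSteps W (fun i => (⟨(X i).X, D i⟩ : Polarized 𝒱)) ⟨Z.X, E⟩ L :=
  have hP' : ∀ i, C.Polarization W (X i).X (D i) := hP
  have hD := fun i => V11219.Loc.homEqNum_of_pol (hP' i).pol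
  (h.fam hD).tsteps e (h.bas hD) h.galoisClass h.mem h.mem_base (fun i => (hP' i).pol) E L hL.1
    hL.2

/-- **The conjecture D.** -/
theorem FreeFamily.homEqNum_iff (e : W.K ≃+* ℂ) (h : FreeFamily χ G X Z) (hP : C.Polarizable X)
    {L : List (ι × ℕ)} (hL : Admissible X L) :
    HomEqNum W (C.prodOf X Z L) ↔ HomEqNum W Z.X := by
  choose D hD using hP
  rw [prodOf_eq D 0]
  exact Q71.TS.homEqNum_tower (h.tsteps e hD 0 hL)

/-- **The conjecture of Hodge type.** -/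
theorem FreeFamily.hodge_iff (e : W.K ≃+* ℂ) (h : FreeFamily χ G X Z)
    (hP : ∀ i, Polarization W (X i).X (D i)) {E : Z.X.Cycles}
    (hE : Z.X.IsCyc 1 E) (hHL : HardLefschetz W Z.X E) {L : List (ι × ℕ)}
    (hL : Admissible X L) :
    HodgeType W (C.towerOf ops (fun i => ⟨(X i).X, D i⟩) ⟨Z.X, E⟩ L).X
      (C.towerOf ops (fun i => ⟨(X i).X, D i⟩) ⟨Z.X, E⟩ L).D ↔ HodgeType W Z.X E := by
  rw [ctower_eq]
  exact hodge_tower (h.tsteps e hP E hL) hE hHL

/-- **The conjecture A for the sum of the divisors.** -/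
theorem FreeFamily.lefschetzA_iff (e : W.K ≃+* ℂ) (h : FreeFamily χ G X Z)
    (hP : ∀ i, Polarization W (X i).X (D i)) {E : Z.X.Cycles}
    (hE : Z.X.IsCyc 1 E) (hHL : HardLefschetz W Z.X E) {L : List (ι × ℕ)}
    (hL : Admissible X L) :
    LefschetzA W (C.towerOf ops (fun i => ⟨(X i).X, D i⟩) ⟨Z.X, E⟩ L).X
      (C.towerOf ops (fun i => ⟨(X i).X, D i⟩) ⟨Z.X, E⟩ L).D ↔ LefschetzA W Z.X E := by
  rw [ctower_eq]
  exact Q71.TS.lefschetzA_tower (h.tsteps e hP E hL) hE hHL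

/-- **The conjecture A for all divisors.** -/
theorem FreeFamily.lefAll_iff (e : W.K ≃+* ℂ) (h : FreeFamily χ G X Z) (hP : C.Polarizable X)
    {L : List (ι × ℕ)} (hL : Admissible X L) :
    LefAll W (C.prodOf X Z L) ↔ LefAll W Z.X := by
  choose D hD using hP
  rw [prodOf_eq D 0]
  exact Q71.TS.lefAll_tower (h.tsteps e hD 0 hL)

end Run7.h552.NG
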