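import Pool.Agent.Run7.h552.NG.GAlg

/-!
# Families of varieties and a variety which is not entangled with them
-/

set_option autoImplicit false

open CategoryTheory AlgebraicGeometry

universe u

namespace Run7.h552.NG

open Pool.Agent.TH125.Gal
open Pool.Agent.H914 Pool.Agent.H914.VarClass Pool.Agent.H914.VarClass.Obj
  Pool.Agent.H914.WeilCohomology Pool.Agent.H281R3.HT

variable {k : Type u} [Field k] {𝒱 : VarClass k} {ops : CycleOps 𝒱}
  {W : WeilCohomology.{u, 0} ops} {Γ : Type} [Group Γ] {ι : Type}

/-- The pull-back by the morphism `f` is equivariant. -/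
def Equivariant {A B : GVar W Γ} (f : A.X ⟶ B.X) : Prop :=
  Intertwines (W.map f) B.act A.act

/-- `C` is the product of `A` and `B`, and the action on its cohomology is compatible with the
projections. -/
def IsProd (A B C : GVar W Γ) : Prop :=
  ∃ h : C.X = A.X.prod B.X,
    Equivariant (eqToHom h ≫ fst A.X B.X) ∧ Equivariant (eqToHom h ≫ snd A.X B.X)

/-- The group acts on the cohomology of the members of the class `G` like a Galois group, and `G` is
closed under products. -/
def GoodClass (χ : CharOf W Γ) (G : Set (GVar W Γ)) : Prop :=
  ∀ A ∈ G, GaloisVar χ A ∧ ∀ B ∈ G, ∃ C ∈ G, IsProd A B C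

/-- The divisor `D` on `X` satisfies the hard Lefschetz theorem and the standard conjectures of
Lefschetz and of Hodge type. -/
def Polarization (W : WeilCohomology.{u, 0} ops) (X : 𝒱.Obj) (D : X.Cycles) : Prop :=
  X.IsCyc 1 D ∧ HardLefschetz W X D ∧ LefschetzB W X D ∧ HodgeType W X D

/-- The varieties `X i` have polarizations. -/
def Polarizable (X : ι → GVar W Γ) : Prop := ∀ i, ∃ D, Polarization W (X i).X D

/-- The variety `Z` and the varieties `X i` are members of the good class `G`; the varieties `X i`
satisfy `Member`, two different ones satisfy `Distinct`, and the cohomology of `Z` is generated by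
subspaces with which the transcendental cohomology of the varieties `X i` is not entangled or which
are small with respect to it. -/
structure FreeFamily (χ : CharOf W Γ) (G : Set (GVar W Γ)) (X : ι → GVar W Γ) (Z : GVar W Γ) :
    Prop where
  good : GoodClass χ G
  mem : ∀ i, X i ∈ G
  mem_base : Z ∈ G
  member : ∀ i, Member (X i)
  distinct : ∀ i j, i ≠ j → Distinct (X i) (X j)
  base : ∀ i, GenFree χ (X i).X.dim (X i).act (transcendental W (X i).X) Z.act

/-- The indices in the list are pairwise different, and `n + 1` is less than the dimension of the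
transcendental cohomology of `X i` for the pairs `(i, n)` for which `X i` has even dimension. -/
def Admissible (X : ι → GVar W Γ) (L : List (ι × ℕ)) : Prop :=
  (L.map Prod.fst).Nodup ∧ ∀ a ∈ L, Even (X a.1).X.dim → a.2 + 1 < transRank W (X a.1).X

end Run7.h552.NG
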